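import Pool.Agent.N92.SD.Odd
import Pool.Agent.R116.AF.DivApp

/-! # Liftable difference sets with Singer parameters: thin sequences of orders -/

set_option autoImplicit false
set_option linter.unusedSectionVars false

namespace Pool.Agent.N92.SD

open Finset Filter Pool.Agent.Y722.HS Pool.Agent.N666.TM Pool.Agent.Y722.LS
open Pool.Agent.H771R2.Dens (Big big_ap)
open Pool.Agent.H771R2.SingerDS (exists_nonres)
open Pool.Agent.N92.TC Pool.Agent.N680.TH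
open Pool.Agent.R116.AF (ExO Liftable exO_lift)

/-- the bad members -/
def BadX (P : ℕ → Prop) (a : ℕ → ℤ) (i : ℕ) : Set ℕ :=
  {t | ∃ n : ℕ, (n : ℤ) = a t ∧ 2 ≤ n ∧ P (n ^ i)}

theorem badX_null {P : ℕ → Prop} (hX : ExO P) {S : ℕ → Finset ℕ} {a : ℕ → ℤ} (ha : Eqd S a) {i : ℕ}
    (hi : Odd i) : NullIn S (BadX P a i) := by
  classical
  have hi0 : 0 < i := hi.pos
  set Ps : Set ℕ := {q : ℕ | q.Prime ∧ 2 < q} with hPs
  have hdiv : ¬ Summable (fun n : ℕ => Ps.indicator (fun n : ℕ => (1 : ℝ) / n) n) := by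
    have h1 := not_summable_of_big (big_ap (m := 1) (a := 1) isUnit_one)
    refine Pool.Agent.TH888.B1.diverges_mono ?_
      (Pool.Agent.TH888.B1.diverges_diff (Set.finite_Iic 2) h1)
    rintro q ⟨⟨hq, hq1⟩, hq2⟩
    exact ⟨hq, not_le.1 hq2⟩
  have hn : ∀ q : ℕ, ∃ b : ZMod q, q ∈ Ps → IsUnit b ∧ b ^ ((q - 1) / 2) = -1 := by
    intro q
    by_cases hq : q ∈ Ps
    · obtain ⟨b, hb⟩ := exists_nonres hq.1 hq.2
      exact ⟨b, fun _ => hb⟩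
    · exact ⟨0, fun h => absurd h hq⟩
  choose b hb using hn
  refine null_mono ?_ (two_step ha.well Ps (fun q hq => hq.1) hdiv (fun _ => 1)
    (fun q => {r : ℕ | r.Prime ∧ (r : ZMod q) = b q}) (fun q r hr => hr.1) (fun q hq => by
      have : NeZero q := ⟨hq.1.ne_zero⟩
      exact not_summable_of_big (big_ap (hb q hq).1)))
  rintro t ⟨n, hnt, hn2, hP⟩ ⟨q, hq, hqc, r, ⟨hr, hrb⟩, hr1, hr2⟩
  have hF : Fact q.Prime := ⟨hq.1⟩
  have hqc' : ((a t : ℤ) : ZMod q) = 1 := hqc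
  have hnq : (n : ZMod q) = 1 := by
    rw [← hqc', ← hnt]
    simp
  have hr1' : (r : ℤ) ∣ a t := hr1
  have hr2' : ¬ (r : ℤ) ^ 2 ∣ a t := hr2
  rw [← hnt] at hr1' hr2'
  have hrn : r ∣ n := by exact_mod_cast hr1'
  have hrn2 : ¬ r ^ 2 ∣ n := fun h => hr2' (by exact_mod_cast h)
  obtain ⟨u, hu⟩ := hrn
  have hru : ¬ r ∣ u := by
    rintro ⟨u', hu'⟩
    exact hrn2 ⟨u', by rw [hu, hu']; ring⟩
  refine hX (n ^ i) (hn2.trans (Nat.le_self_pow hi0.ne' n)) hP q r ((q - 1) / 2) i (u ^ i)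
    hq.1 hq.2 ?_ hr ?_ hi ?_ ?_
  · rw [← ZMod.natCast_eq_zero_iff, Nat.cast_sub (Nat.one_le_pow _ _ (by omega))]
    push_cast
    rw [hnq, one_pow, sub_self]
  · rw [hrb]
    exact (hb q hq).2
  · exact fun h => hru (hr.dvd_of_dvd_pow h)
  · rw [hu, mul_pow]

/-- **One null set** -/
theorem exO_main {P : ℕ → Prop} (hX : ExO P) {S₁ S₂ : ℕ → Finset ℕ}
    (hS₁ : ∀ N, S₁ N ⊆ Ioc N (2 * N))
    (hS₂ : ∀ N, S₂ N ⊆ Ioc N (2 * N)) {a : ℕ → ℤ} (h₁ : Eqd S₁ a) (h₂ : Eqd S₂ a) :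
    ∃ E : Set ℕ, NullIn S₁ E ∧ NullIn S₂ E ∧ ∀ i : ℕ, Odd i →
      {t : ℕ | t ∉ E ∧ ∃ n : ℕ, (n : ℤ) = a t ∧ 2 ≤ n ∧ P (n ^ i)}.Finite := by
  classical
  set B : ℕ → Set ℕ := fun i => if Odd i then BadX P a i else ∅ with hB
  have hBn : ∀ i, NullIn S₁ (B i) ∧ NullIn S₂ (B i) := by
    intro i
    by_cases h : Odd i
    · have : B i = BadX P a i := by rw [hB]; exact if_pos h
      rw [this]
      exact ⟨badX_null hX h₁ h, badX_null hX h₂ h⟩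
    · have : B i = ∅ := by rw [hB]; exact if_neg h
      rw [this]
      exact ⟨null_empty, null_empty⟩
  set E : ℕ → Set ℕ := fun k => {t | ∃ i ≤ k, t ∈ B i} with hE
  have hmono : Monotone E := by
    rintro k k' hk t ⟨i, hi, ht⟩
    exact ⟨i, hi.trans hk, ht⟩
  obtain ⟨E', h1, h2, h3⟩ := diag hmono hS₁ hS₂
    (fun k => null_iUnion (fun i => (hBn i).1) k)
    (fun k => null_iUnion (fun i => (hBn i).2) k)
  refine ⟨E', h1, h2, fun i hi => (h3 i).subset ?_⟩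
  rintro t ⟨htE, n, hn, hn2, hP⟩
  refine ⟨⟨i, le_rfl, ?_⟩, htE⟩
  have : B i = BadX P a i := by rw [hB]; exact if_pos hi
  rw [this]
  exact ⟨n, hn, hn2, hP⟩

theorem lift_main {S₁ S₂ : ℕ → Finset ℕ} (hS₁ : ∀ N, S₁ N ⊆ Ioc N (2 * N))
    (hS₂ : ∀ N, S₂ N ⊆ Ioc N (2 * N)) {a : ℕ → ℤ} (h₁ : Eqd S₁ a) (h₂ : Eqd S₂ a) :
    ∃ E : Set ℕ, NullIn S₁ E ∧ NullIn S₂ E ∧ ∀ i : ℕ, Odd i →
      {t : ℕ | t ∉ E ∧ ∃ n : ℕ, (n : ℤ) = a t ∧ 2 ≤ n ∧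
        ∃ m, Even m ∧ 4 ≤ m ∧ Liftable (n ^ i) m}.Finite :=
  exO_main exO_lift hS₁ hS₂ h₁ h₂

end Pool.Agent.N92.SD
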