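import Pool.Agent.N92.TC.Null
import Pool.Agent.H771R2.Dens

/-! # Sequences uniformly distributed modulo all integers: residue classes modulo a prime of a set -/

set_option autoImplicit false
set_option linter.unusedSectionVars false

namespace Pool.Agent.N92.SD

open Finset Filter Pool.Agent.Y722.HS Pool.Agent.N666.TM Pool.Agent.Y722.LS
open Pool.Agent.H771R2.Dens (Big big_ap)
open Pool.Agent.N92.TC Pool.Agent.N680.TH

theorem not_summable_of_big {P : ℕ → Prop} (h : Big P) :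
    ¬ Summable (fun n : ℕ => {p : ℕ | p.Prime ∧ P p}.indicator (fun n : ℕ => (1 : ℝ) / n) n) := by
  intro hs
  obtain ⟨F, hF, hB⟩ := h ((∑' n : ℕ, {p : ℕ | p.Prime ∧ P p}.indicator
    (fun n : ℕ => (1 : ℝ) / n) n) + 1)
  have h1 := hs.sum_le_tsum F (fun n _ => Set.indicator_nonneg (fun _ _ => by positivity) _)
  have h2 : ∑ n ∈ F, {p : ℕ | p.Prime ∧ P p}.indicator (fun n : ℕ => (1 : ℝ) / n) n =
      ∑ p ∈ F, 1 / (p : ℝ) :=
    Finset.sum_congr rfl fun p hp => Set.indicator_of_mem (by exact hF p hp) _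
  rw [h2] at h1
  linarith

/-- For most members of the sequence there is a small prime `p` of the set such that the member is
congruent to `c p` modulo `p`. -/
theorem hit {S : ℕ → Finset ℕ} {x : ℕ → Unit → ℤ}
    (hw : ∀ H : ℕ, ∃ N₀ : ℕ, ∀ N : ℕ, N₀ ≤ N → Well (S N) x H)
    (Ps : Set ℕ) (hPs : ∀ p ∈ Ps, p.Prime)
    (hdiv : ¬ Summable (fun n : ℕ => Ps.indicator (fun n : ℕ => (1 : ℝ) / n) n))
    (c : ∀ p : ℕ, ZMod p) {ε : ℝ} (hε : 0 < ε) :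
    ∃ y N₀ : ℕ, ∀ N : ℕ, N₀ ≤ N →
      ({n : ℕ | n ∈ S N ∧ ∀ p ∈ Ps, p < y → ((x n () : ℤ) : ZMod p) ≠ c p}.ncard : ℝ) ≤
        ε * (S N).card := by
  classical
  obtain ⟨y, hy⟩ : ∃ y : ℕ, 2 / (ε / 2) ≤ ∑ p ∈ Finset.range y,
      Ps.indicator (fun n : ℕ => (1 : ℝ) / n) p := by
    have hnn : ∀ p : ℕ, 0 ≤ Ps.indicator (fun n : ℕ => (1 : ℝ) / n) p := by
      intro p
      apply Set.indicator_nonneg
      intro _ _
      positivity
    have ht := (not_summable_iff_tendsto_nat_atTop_of_nonneg hnn).mp hdiv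
    exact (ht.eventually_ge_atTop _).exists
  set P : Finset ℕ := (Finset.range y).filter (fun p => p ∈ Ps) with hP
  have hPsum : 2 / (ε / 2) ≤ ∑ p ∈ P, 1 / (p : ℝ) := by
    rw [hP, Finset.sum_filter]
    refine hy.trans (le_of_eq (Finset.sum_congr rfl fun p _ => ?_))
    by_cases h : p ∈ Ps
    · rw [Set.indicator_of_mem h, if_pos h]
    · rw [Set.indicator_of_notMem h, if_neg h]
  have hPm : ∀ p ∈ P, p < y ∧ p ∈ Ps := by
    intro p hp
    rw [hP, Finset.mem_filter, Finset.mem_range] at hp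
    exact hp
  set H : ℕ := y ^ 2 + ⌈4 / (ε / 2)⌉₊ with hH
  obtain ⟨N₁, hN₁⟩ := hw H
  refine ⟨y, N₁, fun N hN => ?_⟩
  have hws := hN₁ N hN
  set Ω : ∀ p : ℕ, Set (Unit → ZMod p) := fun p => {fun _ => c p} with hΩ
  have hd : ∀ p : ℕ, Pool.Agent.N666.TM.dens (Ω p) = 1 / (p : ℝ) := by
    intro p
    unfold Pool.Agent.N666.TM.dens
    rw [hΩ, Set.ncard_singleton, Fintype.card_unit, pow_one, Nat.cast_one]
  have hμ : 2 / (ε / 2) ≤ ∑ p ∈ P, Pool.Agent.N666.TM.dens (Ω p) := by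
    rw [Finset.sum_congr rfl fun p _ => hd p]
    exact hPsum
  have hμ0 : 0 < ∑ p ∈ P, Pool.Agent.N666.TM.dens (Ω p) := lt_of_lt_of_le (by positivity) hμ
  have h1 := turan hws P (fun p => p) (fun p hp => (hPs p (hPm p hp).2).pos)
    (fun p hp p' hp' hne => (Nat.coprime_primes (hPs p (hPm p hp).2) (hPs p' (hPm p' hp').2)).mpr hne)
    (fun p hp p' hp' => by
      have a1 := (hPm p hp).1.le
      have a2 := (hPm p' hp').1.le
      calc p * p' ≤ y * y := Nat.mul_le_mul a1 a2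
        _ = y ^ 2 := by ring
        _ ≤ 2 * H + 1 := by omega)
    Ω _ rfl hμ0
  have h2 : 2 / (∑ p ∈ P, Pool.Agent.N666.TM.dens (Ω p)) ≤ ε / 2 := by
    rw [div_le_iff₀ hμ0]
    rw [div_le_iff₀ (by positivity)] at hμ
    linarith
  have h3 : (4 : ℝ) / (2 * H + 1) ≤ ε / 2 := by
    have h4 : 4 / (ε / 2) ≤ (H : ℝ) :=
      (Nat.le_ceil _).trans (by exact_mod_cast (by omega : ⌈4 / (ε / 2)⌉₊ ≤ H))
    rw [div_le_iff₀ (by positivity)] at h4
    rw [div_le_iff₀ (by positivity)]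
    nlinarith
  have hsub : {n : ℕ | n ∈ S N ∧ ∀ p ∈ Ps, p < y → ((x n () : ℤ) : ZMod p) ≠ c p} ⊆
      ↑((S N).filter fun n => ∀ p ∈ P, red p (x n) ∉ Ω p) := by
    rintro n ⟨hn, hn'⟩
    rw [Finset.mem_coe, Finset.mem_filter]
    refine ⟨hn, fun p hp hcon => hn' p (hPm p hp).2 (hPm p hp).1 ?_⟩
    have h5 : red p (x n) = fun _ => c p := hcon
    exact congrFun h5 ()
  have h4 : ({n : ℕ | n ∈ S N ∧ ∀ p ∈ Ps, p < y → ((x n () : ℤ) : ZMod p) ≠ c p}.ncard : ℝ) ≤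
      (((S N).filter fun n => ∀ p ∈ P, red p (x n) ∉ Ω p).card : ℝ) := by
    have := Set.ncard_le_ncard hsub (Finset.finite_toSet _)
    rw [Set.ncard_coe_finset] at this
    exact_mod_cast this
  have h5 : (0 : ℝ) ≤ (S N).card := Nat.cast_nonneg _
  have h6 : (2 / (∑ p ∈ P, Pool.Agent.N666.TM.dens (Ω p)) + 4 / (2 * (H : ℝ) + 1)) * (S N).card ≤
      ε * (S N).card := mul_le_mul_of_nonneg_right (by linarith) h5
  refine h4.trans (le_trans (le_of_eq ?_) (h1.trans h6))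
  congr!

theorem null_mono {S : ℕ → Finset ℕ} {A B : Set ℕ} (hAB : A ⊆ B) (hB : NullIn S B) : NullIn S A := by
  intro ε hε
  obtain ⟨N₀, h⟩ := hB ε hε
  refine ⟨N₀, fun N hN => le_trans ?_ (h N hN)⟩
  have hfin : {t : ℕ | t ∈ S N ∧ t ∈ B}.Finite := (S N).finite_toSet.subset fun t ht => ht.1
  have hsub : {t : ℕ | t ∈ S N ∧ t ∈ A} ⊆ {t : ℕ | t ∈ S N ∧ t ∈ B} :=
    fun t ht => ⟨ht.1, hAB ht.2⟩
  exact_mod_cast Set.ncard_le_ncard hsub hfin

/-- The two-step sieve: almost all `n` are congruent to `c q` modulo some `q` of the first set such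
that some `r ∈ R q` divides `n` exactly once. -/
theorem two_step {S : ℕ → Finset ℕ} {x : ℕ → Unit → ℤ}
    (hw : ∀ H : ℕ, ∃ N₀ : ℕ, ∀ N : ℕ, N₀ ≤ N → Well (S N) x H)
    (Ps : Set ℕ) (hPs : ∀ p ∈ Ps, p.Prime)
    (hdiv : ¬ Summable (fun n : ℕ => Ps.indicator (fun n : ℕ => (1 : ℝ) / n) n))
    (c : ∀ p : ℕ, ZMod p) (R : ℕ → Set ℕ) (hR : ∀ q, ∀ r ∈ R q, r.Prime)
    (hRdiv : ∀ q ∈ Ps, ¬ Summable (fun n : ℕ => (R q).indicator (fun n : ℕ => (1 : ℝ) / n) n)) :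
    NullIn S {n | ¬ ∃ q ∈ Ps, ((x n () : ℤ) : ZMod q) = c q ∧ ∃ r ∈ R q, Once r (x n ())} := by
  classical
  intro ε hε
  obtain ⟨y, N₁, h1⟩ := hit hw Ps hPs hdiv c (ε := ε / 2) (by positivity)
  set B : ℕ → Set ℕ := fun q => if q ∈ Ps then {n | ¬ ∃ r ∈ R q, Once r (x n ())} else ∅ with hB
  have hBn : ∀ q, NullIn S (B q) := by
    intro q
    by_cases hq : q ∈ Ps
    · have : B q = {n | ¬ ∃ r ∈ R q, Once r (x n ())} := by rw [hB]; exact if_pos hq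
      rw [this]
      exact Pool.Agent.N92.TC.null_of_div hw (R q) (hR q) (hRdiv q hq)
    · have : B q = ∅ := by rw [hB]; exact if_neg hq
      rw [this]
      intro ε hε
      refine ⟨0, fun N _ => ?_⟩
      simp only [Set.mem_empty_iff_false, and_false, Set.ofPred_false, Set.ncard_empty,
        Nat.cast_zero]
      positivity
  obtain ⟨N₂, h2⟩ := null_iUnion hBn y (ε / 2) (by positivity)
  refine ⟨max N₁ N₂, fun N hN => ?_⟩
  have a1 := h1 N ((le_max_left _ _).trans hN)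
  have a2 := h2 N ((le_max_right _ _).trans hN)
  have hsub : {n : ℕ | n ∈ S N ∧ n ∈ {n | ¬ ∃ q ∈ Ps, ((x n () : ℤ) : ZMod q) = c q ∧
      ∃ r ∈ R q, Once r (x n ())}} ⊆
      {n : ℕ | n ∈ S N ∧ ∀ p ∈ Ps, p < y → ((x n () : ℤ) : ZMod p) ≠ c p} ∪
      {n : ℕ | n ∈ S N ∧ n ∈ {t | ∃ i ≤ y, t ∈ B i}} := by
    rintro n ⟨hn, hno⟩
    by_cases hex : ∀ p ∈ Ps, p < y → ((x n () : ℤ) : ZMod p) ≠ c p
    · exact Or.inl ⟨hn, hex⟩
    · push Not at hex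
      obtain ⟨q, hq, hqy, hqc⟩ := hex
      refine Or.inr ⟨hn, q, hqy.le, ?_⟩
      have : B q = {n | ¬ ∃ r ∈ R q, Once r (x n ())} := by rw [hB]; exact if_pos hq
      rw [this]
      intro hr
      exact hno ⟨q, hq, hqc, hr⟩
  have hf1 : {n : ℕ | n ∈ S N ∧ ∀ p ∈ Ps, p < y → ((x n () : ℤ) : ZMod p) ≠ c p}.Finite :=
    (S N).finite_toSet.subset fun t ht => ht.1
  have hf2 : {n : ℕ | n ∈ S N ∧ n ∈ {t | ∃ i ≤ y, t ∈ B i}}.Finite :=
    (S N).finite_toSet.subset fun t ht => ht.1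
  have h3 := (Set.ncard_le_ncard hsub (hf1.union hf2)).trans (Set.ncard_union_le _ _)
  have h4 : ({n : ℕ | n ∈ S N ∧ n ∈ {n | ¬ ∃ q ∈ Ps, ((x n () : ℤ) : ZMod q) = c q ∧
      ∃ r ∈ R q, Once r (x n ())}}.ncard : ℝ) ≤
      ({n : ℕ | n ∈ S N ∧ ∀ p ∈ Ps, p < y → ((x n () : ℤ) : ZMod p) ≠ c p}.ncard : ℝ) +
      ({n : ℕ | n ∈ S N ∧ n ∈ {t | ∃ i ≤ y, t ∈ B i}}.ncard : ℝ) := by exact_mod_cast h3
  linarith

end Pool.Agent.N92.SD
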