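import Pool.Agent.N92.SD.Odd

/-! # Lehmer's totient problem for sequences uniformly distributed modulo all integers -/

set_option autoImplicit false
set_option linter.unusedSectionVars false

namespace Pool.Agent.N92.SD

open Finset Filter Polynomial Pool.Agent.Y722.HS Pool.Agent.N666.TM Pool.Agent.Y722.LS
open Pool.Agent.H771R2.Dens (Big big_ap)
open Pool.Agent.N92.TC Pool.Agent.N680.TH

/-- one null set for countably many null sets -/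
theorem one_countable {S₁ S₂ : ℕ → Finset ℕ} (hS₁ : ∀ N, S₁ N ⊆ Ioc N (2 * N))
    (hS₂ : ∀ N, S₂ N ⊆ Ioc N (2 * N)) {I : Type} [Countable I] (B : I → Set ℕ)
    (h₁ : ∀ i, NullIn S₁ (B i)) (h₂ : ∀ i, NullIn S₂ (B i)) :
    ∃ E : Set ℕ, NullIn S₁ E ∧ NullIn S₂ E ∧ ∀ i, {t : ℕ | t ∉ E ∧ t ∈ B i}.Finite := by
  classical
  rcases isEmpty_or_nonempty I with hI | hI
  · exact ⟨∅, null_empty, null_empty, fun i => (hI.false i).elim⟩
  obtain ⟨e, he⟩ := exists_surjective_nat I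
  set E : ℕ → Set ℕ := fun k => {n | ∃ i ≤ k, n ∈ B (e i)} with hE
  have hmono : Monotone E := by
    intro k k' hk n hn
    obtain ⟨i, hi, hn⟩ := hn
    exact ⟨i, hi.trans hk, hn⟩
  obtain ⟨E', h1, h2, h3⟩ := diag hmono hS₁ hS₂ (fun k => null_iUnion (fun i => h₁ (e i)) k)
    (fun k => null_iUnion (fun i => h₂ (e i)) k)
  refine ⟨E', h1, h2, fun i => ?_⟩
  obtain ⟨k, rfl⟩ := he i
  refine (h3 k).subset ?_
  rintro t ⟨ht1, ht2⟩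
  exact ⟨⟨k, le_rfl, ht2⟩, ht1⟩

/-- a shift of a uniformly distributed sequence -/
theorem Eqd.shift {S : ℕ → Finset ℕ} {a : ℕ → ℤ} (h : Eqd S a) (c : ℤ) :
    Eqd S (fun t => a t + c) := by
  intro q hq ρ
  have := h q hq (ρ - c)
  refine this.congr fun N => ?_
  have : {t : ℕ | t ∈ S N ∧ (q : ℤ) ∣ a t - (ρ - c)} = {t : ℕ | t ∈ S N ∧ (q : ℤ) ∣ a t + c - ρ} := by
    ext t
    have e : a t - (ρ - c) = a t + c - ρ := by ring
    rw [Set.mem_ofPred_eq, Set.mem_ofPred_eq, e]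
  rw [this]

/-- a hit: `x n` is congruent to `c q` modulo `q` and some `r ∈ R q` divides it exactly once -/
def HitAt (x : ℕ → Unit → ℤ) (Ps : Set ℕ) (c : ∀ p : ℕ, ZMod p) (R : ℕ → Set ℕ) (n q : ℕ) : Prop :=
  q ∈ Ps ∧ ((x n () : ℤ) : ZMod q) = c q ∧ ∃ r ∈ R q, Once r (x n ())

/-- the two-step sieve, with bounded `q` -/
theorem two_step_fin {S : ℕ → Finset ℕ} {x : ℕ → Unit → ℤ}
    (hw : ∀ H : ℕ, ∃ N₀ : ℕ, ∀ N : ℕ, N₀ ≤ N → Well (S N) x H)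
    (Ps : Set ℕ) (hPs : ∀ p ∈ Ps, p.Prime)
    (hdiv : ¬ Summable (fun n : ℕ => Ps.indicator (fun n : ℕ => (1 : ℝ) / n) n))
    (c : ∀ p : ℕ, ZMod p) (R : ℕ → Set ℕ) (hR : ∀ q, ∀ r ∈ R q, r.Prime)
    (hRdiv : ∀ q ∈ Ps, ¬ Summable (fun n : ℕ => (R q).indicator (fun n : ℕ => (1 : ℝ) / n) n))
    {ε : ℝ} (hε : 0 < ε) :
    ∃ y N₀ : ℕ, ∀ N : ℕ, N₀ ≤ N →
      ({n : ℕ | n ∈ S N ∧ ¬ ∃ q ≤ y, HitAt x Ps c R n q}.ncard : ℝ) ≤ ε * (S N).card := by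
  classical
  obtain ⟨y, N₁, h1⟩ := hit hw Ps hPs hdiv c (ε := ε / 2) (by positivity)
  set B : ℕ → Set ℕ := fun q => if q ∈ Ps then {n | ¬ ∃ r ∈ R q, Once r (x n ())} else ∅ with hB
  have hBn : ∀ q, NullIn S (B q) := by
    intro q
    by_cases hq : q ∈ Ps
    · have : B q = {n | ¬ ∃ r ∈ R q, Once r (x n ())} := by rw [hB]; exact if_pos hq
      rw [this]
      exact Pool.Agent.N92.TC.null_of_div hw (R q) (hR q) (hRdiv q hq)
    · have : B q = ∅ := by rw [hB]; exact if_neg hq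
      rw [this]
      exact null_empty
  obtain ⟨N₂, h2⟩ := null_iUnion hBn y (ε / 2) (by positivity)
  refine ⟨y, max N₁ N₂, fun N hN => ?_⟩
  have a1 := h1 N ((le_max_left _ _).trans hN)
  have a2 := h2 N ((le_max_right _ _).trans hN)
  have hsub : {n : ℕ | n ∈ S N ∧ ¬ ∃ q ≤ y, HitAt x Ps c R n q} ⊆
      {n : ℕ | n ∈ S N ∧ ∀ p ∈ Ps, p < y → ((x n () : ℤ) : ZMod p) ≠ c p} ∪
      {n : ℕ | n ∈ S N ∧ n ∈ {t | ∃ i ≤ y, t ∈ B i}} := by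
    rintro n ⟨hn, hno⟩
    by_cases hex : ∀ p ∈ Ps, p < y → ((x n () : ℤ) : ZMod p) ≠ c p
    · exact Or.inl ⟨hn, hex⟩
    · push Not at hex
      obtain ⟨q, hq, hqy, hqc⟩ := hex
      refine Or.inr ⟨hn, q, hqy.le, ?_⟩
      have : B q = {n | ¬ ∃ r ∈ R q, Once r (x n ())} := by rw [hB]; exact if_pos hq
      rw [this]
      intro hr
      exact hno ⟨q, hqy.le, hq, hqc, hr⟩
  have hf1 : {n : ℕ | n ∈ S N ∧ ∀ p ∈ Ps, p < y → ((x n () : ℤ) : ZMod p) ≠ c p}.Finite :=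
    (S N).finite_toSet.subset fun t ht => ht.1
  have hf2 : {n : ℕ | n ∈ S N ∧ n ∈ {t | ∃ i ≤ y, t ∈ B i}}.Finite :=
    (S N).finite_toSet.subset fun t ht => ht.1
  have h3 := (Set.ncard_le_ncard hsub (hf1.union hf2)).trans (Set.ncard_union_le _ _)
  have h4 : ({n : ℕ | n ∈ S N ∧ ¬ ∃ q ≤ y, HitAt x Ps c R n q}.ncard : ℝ) ≤
      ({n : ℕ | n ∈ S N ∧ ∀ p ∈ Ps, p < y → ((x n () : ℤ) : ZMod p) ≠ c p}.ncard : ℝ) +
      ({n : ℕ | n ∈ S N ∧ n ∈ {t | ∃ i ≤ y, t ∈ B i}}.ncard : ℝ) := by exact_mod_cast h3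
  linarith

/-- almost all members have many hits -/
theorem many_hits {S : ℕ → Finset ℕ} {x : ℕ → Unit → ℤ}
    (hw : ∀ H : ℕ, ∃ N₀ : ℕ, ∀ N : ℕ, N₀ ≤ N → Well (S N) x H)
    (Ps : Set ℕ) (hPs : ∀ p ∈ Ps, p.Prime)
    (hdiv : ¬ Summable (fun n : ℕ => Ps.indicator (fun n : ℕ => (1 : ℝ) / n) n))
    (c : ∀ p : ℕ, ZMod p) (R : ℕ → Set ℕ) (hR : ∀ q, ∀ r ∈ R q, r.Prime)
    (hRdiv : ∀ q ∈ Ps, ¬ Summable (fun n : ℕ => (R q).indicator (fun n : ℕ => (1 : ℝ) / n) n))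
    (k : ℕ) : ∀ Q : ℕ, NullIn S {n | ¬ ∃ F : Finset ℕ, F.card = k ∧ ∀ q ∈ F, Q < q ∧
      HitAt x Ps c R n q} := by
  classical
  induction k with
  | zero =>
    intro Q
    refine null_mono ?_ null_empty
    intro n hn
    exact hn ⟨∅, rfl, fun q hq => absurd hq (Finset.notMem_empty q)⟩
  | succ k ih =>
    intro Q ε hε
    obtain ⟨y, N₁, h1⟩ := two_step_fin hw (Ps \ Set.Iic Q) (fun p hp => hPs p hp.1)
      (Pool.Agent.TH888.B1.diverges_diff (Set.finite_Iic Q) hdiv) c R hR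
      (fun q hq => hRdiv q hq.1) (ε := ε / 2) (by positivity)
    obtain ⟨N₂, h2⟩ := ih (max y Q) (ε / 2) (by positivity)
    refine ⟨max N₁ N₂, fun N hN => ?_⟩
    have a1 := h1 N ((le_max_left _ _).trans hN)
    have a2 := h2 N ((le_max_right _ _).trans hN)
    have hsub : {n : ℕ | n ∈ S N ∧ n ∈ {n | ¬ ∃ F : Finset ℕ, F.card = k + 1 ∧ ∀ q ∈ F, Q < q ∧
        HitAt x Ps c R n q}} ⊆
        {n : ℕ | n ∈ S N ∧ ¬ ∃ q ≤ y, HitAt x (Ps \ Set.Iic Q) c R n q} ∪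
        {n : ℕ | n ∈ S N ∧ n ∈ {n | ¬ ∃ F : Finset ℕ, F.card = k ∧ ∀ q ∈ F, max y Q < q ∧
          HitAt x Ps c R n q}} := by
      rintro n ⟨hn, hno⟩
      by_contra hcon
      rw [Set.mem_union, not_or] at hcon
      obtain ⟨c1, c2⟩ := hcon
      have c1' : ∃ q ≤ y, HitAt x (Ps \ Set.Iic Q) c R n q := by
        by_contra h
        exact c1 ⟨hn, h⟩
      have c2' : ∃ F : Finset ℕ, F.card = k ∧ ∀ q ∈ F, max y Q < q ∧ HitAt x Ps c R n q := by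
        by_contra h
        exact c2 ⟨hn, h⟩
      obtain ⟨q, hqy, hq1, hq2, hq3⟩ := c1'
      obtain ⟨F, hF1, hF2⟩ := c2'
      have hqF : q ∉ F := by
        intro h
        have := (hF2 q h).1
        have := le_max_left y Q
        omega
      apply hno
      refine ⟨insert q F, by rw [Finset.card_insert_of_notMem hqF, hF1], fun q' hq' => ?_⟩
      rcases Finset.mem_insert.1 hq' with rfl | h
      · exact ⟨not_le.1 hq1.2, hq1.1, hq2, hq3⟩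
      · exact ⟨(le_max_right y Q).trans_lt (hF2 q' h).1, (hF2 q' h).2⟩
    have hf1 : {n : ℕ | n ∈ S N ∧ ¬ ∃ q ≤ y, HitAt x (Ps \ Set.Iic Q) c R n q}.Finite :=
      (S N).finite_toSet.subset fun t ht => ht.1
    have hf2 : {n : ℕ | n ∈ S N ∧ n ∈ {n | ¬ ∃ F : Finset ℕ, F.card = k ∧ ∀ q ∈ F, max y Q < q ∧
          HitAt x Ps c R n q}}.Finite :=
      (S N).finite_toSet.subset fun t ht => ht.1
    have h3 := (Set.ncard_le_ncard hsub (hf1.union hf2)).trans (Set.ncard_union_le _ _)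
    have h4 : ({n : ℕ | n ∈ S N ∧ n ∈ {n | ¬ ∃ F : Finset ℕ, F.card = k + 1 ∧ ∀ q ∈ F, Q < q ∧
        HitAt x Ps c R n q}}.ncard : ℝ) ≤
        ({n : ℕ | n ∈ S N ∧ ¬ ∃ q ≤ y, HitAt x (Ps \ Set.Iic Q) c R n q}.ncard : ℝ) +
        ({n : ℕ | n ∈ S N ∧ n ∈ {n | ¬ ∃ F : Finset ℕ, F.card = k ∧ ∀ q ∈ F, max y Q < q ∧
          HitAt x Ps c R n q}}.ncard : ℝ) := by exact_mod_cast h3
    linarith

/-- there are `k` primes `q` with `q ∤ G(n)` and `q ∣ p - 1` for a prime divisor `p` of `n` -/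
def Far (G : ℤ[X]) (k : ℕ) (n : ℤ) : Prop :=
  ∃ Q : Finset ℕ, Q.card = k ∧ ∀ q ∈ Q, q.Prime ∧ ¬ (q : ℤ) ∣ G.eval n ∧
    ∃ p : ℕ, p.Prime ∧ (p : ℤ) ∣ n ∧ q ∣ p - 1

theorem far_null {S : ℕ → Finset ℕ} {a : ℕ → ℤ} (ha : Eqd S a) (c : ℤ) {G : ℤ[X]} (hG : G ≠ 0)
    (k : ℕ) : NullIn S {t | ¬ Far G k (a t + c)} := by
  classical
  -- an integer which is not a zero
  obtain ⟨m, hm⟩ : ∃ m : ℤ, G.eval m ≠ 0 := by
    by_contra hcon
    push Not at hcon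
    exact hG (Polynomial.funext fun r => by rw [hcon r, eval_zero])
  set Ps : Set ℕ := {q : ℕ | q.Prime ∧ ¬ (q : ℤ) ∣ G.eval m} with hPs
  have hdiv : ¬ Summable (fun n : ℕ => Ps.indicator (fun n : ℕ => (1 : ℝ) / n) n) := by
    have h1 := not_summable_of_big (big_ap (m := 1) (a := 1) isUnit_one)
    refine Pool.Agent.TH888.B1.diverges_mono ?_
      (Pool.Agent.TH888.B1.diverges_diff (Set.finite_Iic (G.eval m).natAbs) h1)
    rintro q ⟨⟨hq, hq1⟩, hq2⟩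
    refine ⟨hq, fun hd => hq2 ?_⟩
    rw [Set.mem_Iic]
    exact Nat.le_of_dvd (Int.natAbs_pos.2 hm) (Int.natCast_dvd.1 hd)
  refine null_mono ?_ (many_hits (Eqd.shift ha c).well Ps (fun q hq => hq.1) hdiv
    (fun q => ((m : ℤ) : ZMod q))
    (fun q => {r : ℕ | r.Prime ∧ (r : ZMod q) = 1}) (fun q r hr => hr.1) (fun q hq => by
      have : NeZero q := ⟨hq.1.ne_zero⟩
      exact not_summable_of_big (big_ap isUnit_one)) k 0)
  rintro t ht ⟨F, hF1, hF2⟩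
  apply ht
  refine ⟨F, hF1, fun q hqF => ?_⟩
  obtain ⟨-, hq, hqc, r, ⟨hr, hr1⟩, hr2, -⟩ := hF2 q hqF
  have hqc' : ((a t + c : ℤ) : ZMod q) = ((m : ℤ) : ZMod q) := hqc
  have hr2' : (r : ℤ) ∣ a t + c := hr2
  refine ⟨hq.1, fun h1 => hq.2 ?_, r, hr, hr2', ?_⟩
  · have h2 : (q : ℤ) ∣ (a t + c) - m := by
      rw [← ZMod.intCast_zmod_eq_zero_iff_dvd, Int.cast_sub, hqc', sub_self]
    have h3 := h2.trans (Polynomial.sub_dvd_eval_sub (a t + c) m G)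
    exact (dvd_sub_right h1).1 h3
  · rw [← ZMod.natCast_eq_zero_iff, Nat.cast_sub hr.one_lt.le, hr1]
    simp

theorem leh_main {S₁ S₂ : ℕ → Finset ℕ} (hS₁ : ∀ N, S₁ N ⊆ Ioc N (2 * N))
    (hS₂ : ∀ N, S₂ N ⊆ Ioc N (2 * N)) {a : ℕ → ℤ} (h₁ : Eqd S₁ a) (h₂ : Eqd S₂ a) :
    ∃ E : Set ℕ, NullIn S₁ E ∧ NullIn S₂ E ∧ ∀ (G : ℤ[X]) (c : ℤ) (k : ℕ), G ≠ 0 →
      {t : ℕ | t ∉ E ∧ ¬ Far G k (a t + c)}.Finite := by
  classical
  have h0 : Countable ℤ[X] := by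
    rw [← Cardinal.mk_le_aleph0_iff]
    refine Polynomial.cardinalMk_le_max.trans ?_
    rw [max_le_iff]
    exact ⟨Cardinal.mk_le_aleph0, le_rfl⟩
  have hc : Countable ({G : ℤ[X] // G ≠ 0} × ℤ × ℕ) := inferInstance
  obtain ⟨E, h1, h2, h3⟩ := one_countable hS₁ hS₂
    (fun i : {G : ℤ[X] // G ≠ 0} × ℤ × ℕ => {t | ¬ Far i.1.1 i.2.2 (a t + i.2.1)})
    (fun i => far_null h₁ i.2.1 i.1.2 i.2.2) (fun i => far_null h₂ i.2.1 i.1.2 i.2.2)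
  exact ⟨E, h1, h2, fun G c k hG => h3 (⟨G, hG⟩, c, k)⟩

/-- `gcd (φ(n), g)` is small if many primes divide `φ(n)` but not `g` -/
theorem far_gcd {G : ℤ[X]} {k n : ℕ} (hn : 1 ≤ n) (h : Far G k n) :
    2 ^ k * Nat.gcd n.totient (G.eval (n : ℤ)).natAbs ≤ n.totient := by
  classical
  obtain ⟨Q, hQ, hq⟩ := h
  have hφ : 0 < n.totient := Nat.totient_pos.2 hn
  have hprod : ∏ q ∈ Q, q ∣ n.totient := by
    refine Finset.prod_primes_dvd _ (fun q hqQ => (hq q hqQ).1.prime) (fun q hqQ => ?_)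
    obtain ⟨-, -, p, hp, hpn, hqp⟩ := hq q hqQ
    have hpn' : p ∣ n := by exact_mod_cast hpn
    have h1 : p.totient ∣ n.totient := Nat.totient_dvd_of_dvd hpn'
    rw [Nat.totient_prime hp] at h1
    exact hqp.trans h1
  have hcop : Nat.Coprime (∏ q ∈ Q, q) (Nat.gcd n.totient (G.eval (n : ℤ)).natAbs) := by
    refine Nat.Coprime.prod_left fun q hqQ => ?_
    rw [Nat.Prime.coprime_iff_not_dvd (hq q hqQ).1]
    intro hd
    exact (hq q hqQ).2.1 (Int.natCast_dvd.2 (hd.trans (Nat.gcd_dvd_right _ _)))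
  have hdvd := hcop.mul_dvd_of_dvd_of_dvd hprod (Nat.gcd_dvd_left n.totient (G.eval (n : ℤ)).natAbs)
  have h2 : 2 ^ k ≤ ∏ q ∈ Q, q := by
    rw [← hQ]
    exact Finset.pow_card_le_prod Q _ 2 fun q hqQ => (hq q hqQ).1.two_le
  exact (Nat.mul_le_mul_right _ h2).trans (Nat.le_of_dvd hφ hdvd)

end Pool.Agent.N92.SD
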