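import Pool.Agent.N92.SD.Hit
import Pool.Agent.H771R2.SingerDS
import Pool.Agent.TH888.B1.Div

/-! # Difference sets with Singer parameters, odd dimension: thin sequences of orders -/

set_option autoImplicit false
set_option linter.unusedSectionVars false

namespace Pool.Agent.N92.SD

open Finset Filter Pool.Agent.Y722.HS Pool.Agent.N666.TM Pool.Agent.Y722.LS
open Pool.Agent.H771R2.Dens (Big big_ap)
open Pool.Agent.H771R2.SingerDS (HasSinger odd_geom exists_nonres)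
open Pool.Agent.H771R2.Lander (no_difference_set)
open Pool.Agent.N92.TC Pool.Agent.N680.TH

/-- the exclusion (copied from `TH66.SG.Odd`) -/
theorem excluded' {n m w r j c n' : ℕ} (hm : Odd m) (hm3 : 3 ≤ m)
    (hn : 2 ≤ n) (h : HasSinger n m) (hw : w.Prime)
    (hwn : (n : ZMod w) ^ m = 1) (hwn1 : (n : ZMod w) ≠ 1) (hr : r.Prime)
    (hc : Odd c) (hn' : n = r ^ c * n') (hrn : ¬ r ∣ n') (hrw : (r : ZMod w) ^ j = -1) : False := by
  obtain ⟨G, hG, hGf, hGd, D, h1, h2, h3⟩ := h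
  have : Fact w.Prime := ⟨hw⟩
  have hn1 : 0 < n - 1 := by omega
  -- sizes
  have hgeom : ∀ j : ℕ, (∑ i ∈ Finset.range j, n ^ i) * (n - 1) = n ^ j - 1 := by
    intro j
    exact Nat.geomSum_eq (by omega) j ▸ (Nat.div_mul_cancel (by
      simpa using Nat.sub_dvd_pow_sub_pow n 1 j))
  have hv : Fintype.card G = ∑ i ∈ Finset.range m, n ^ i :=
    Nat.eq_of_mul_eq_mul_right hn1 (h1.trans (hgeom m).symm)
  have hk : D.card = ∑ i ∈ Finset.range (m - 1), n ^ i :=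
    Nat.eq_of_mul_eq_mul_right hn1 (h2.trans (hgeom (m - 1)).symm)
  have hlam : ∀ g : G, g ≠ 1 → ((D ×ˢ D).filter (fun p : G × G => p.1 * p.2⁻¹ = g)).card =
      ∑ i ∈ Finset.range (m - 2), n ^ i := fun g hg =>
    Nat.eq_of_mul_eq_mul_right hn1 ((h3 g hg).trans (hgeom (m - 2)).symm)
  -- `v` is odd
  have hodd : Odd (Fintype.card G) := by
    obtain ⟨j, rfl⟩ := hm
    rw [hv]
    exact odd_geom n j
  -- `w ∣ v`
  have hqv : w ∣ Fintype.card G := by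
    rw [← ZMod.natCast_eq_zero_iff]
    have h4 : ((Fintype.card G * (n - 1) : ℕ) : ZMod w) = 0 := by
      rw [h1, Nat.cast_sub (Nat.one_le_pow _ _ (by omega))]
      push_cast
      rw [hwn, sub_self]
    rw [Nat.cast_mul] at h4
    rcases mul_eq_zero.1 h4 with h5 | h5
    · exact h5
    · exfalso
      rw [Nat.cast_sub (by omega), sub_eq_zero] at h5
      exact hwn1 (by simpa using h5)
  have hru : ¬ (r : ℤ) ∣ ((n' : ℤ) ^ (m - 2)) := by
    intro h4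
    have h5 := (Nat.prime_iff_prime_int.1 hr).dvd_of_dvd_pow h4
    exact hrn (by exact_mod_cast h5)
  refine no_difference_set D _ _ hk hlam hodd hw hqv hr hrw (a := c * (m - 2)) ?_ hru ?_
  · refine hc.mul ?_
    obtain ⟨j, rfl⟩ := hm
    exact ⟨j - 1, by omega⟩
  · have h4 : m - 1 = (m - 2) + 1 := by omega
    rw [h4, Finset.sum_range_succ]
    push_cast
    rw [hn']
    push_cast
    ring

/-- an element of order `L` modulo `w` -/
theorem exists_zeta (w L : ℕ) [Fact w.Prime] (h : L ∣ w - 1) :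
    ∃ ζ : ZMod w, ∀ k : ℕ, ζ ^ k = 1 ↔ L ∣ k := by
  have hw := (Fact.out : w.Prime)
  have hw1 : w - 1 ≠ 0 := by
    have := hw.two_le
    omega
  obtain ⟨g, hg⟩ := IsCyclic.exists_ofOrder_eq_natCard (α := (ZMod w)ˣ)
  rw [Nat.card_eq_fintype_card, ZMod.card_units] at hg
  have hL : 0 < L := Nat.pos_of_dvd_of_pos h (by omega)
  have hd : (w - 1) / L ∣ w - 1 := Nat.div_dvd_of_dvd h
  have hd0 : (w - 1) / L ≠ 0 := by
    have := Nat.div_mul_cancel h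
    intro h0
    rw [h0, zero_mul] at this
    exact hw1 this.symm
  have ho : orderOf (g ^ ((w - 1) / L)) = L := by
    rw [orderOf_pow_of_dvd hd0 (hg ▸ hd), hg]
    exact Nat.div_div_self h hw1
  refine ⟨((g ^ ((w - 1) / L) : (ZMod w)ˣ) : ZMod w), fun k => ?_⟩
  rw [← Units.val_pow_eq_pow_val, Units.val_eq_one]
  conv_rhs => rw [← ho]
  exact orderOf_dvd_iff_pow_eq_one.symm

/-- the bad members -/
def Bad (a : ℕ → ℤ) (i l : ℕ) : Set ℕ :=
  {t | ∃ n : ℕ, (n : ℤ) = a t ∧ 2 ≤ n ∧ ∃ m, Odd m ∧ 3 ≤ m ∧ l ∣ m ∧ HasSinger (n ^ i) m}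

theorem bad_null {S : ℕ → Finset ℕ} {a : ℕ → ℤ} (ha : Eqd S a) {i l : ℕ} (hi : Odd i)
    (hl : l.Prime) : NullIn S (Bad a i l) := by
  classical
  have hi0 : 0 < i := hi.pos
  set d : ℕ := i * l with hd
  have hd0 : 0 < d := Nat.mul_pos hi0 hl.pos
  have : NeZero d := ⟨hd0.ne'⟩
  set Ps : Set ℕ := {q : ℕ | q.Prime ∧ (2 < q ∧ (q : ZMod d) = 1)} with hPs
  have hdiv : ¬ Summable (fun n : ℕ => Ps.indicator (fun n : ℕ => (1 : ℝ) / n) n) := by
    have h1 := not_summable_of_big (big_ap (m := d) (a := 1) isUnit_one)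
    refine Pool.Agent.TH888.B1.diverges_mono ?_
      (Pool.Agent.TH888.B1.diverges_diff (Set.finite_Iic 2) h1)
    rintro q ⟨⟨hq, hq1⟩, hq2⟩
    exact ⟨hq, not_le.1 hq2, hq1⟩
  have hz : ∀ q : ℕ, ∃ z : ZMod q, q ∈ Ps → ∀ k : ℕ, z ^ k = 1 ↔ d ∣ k := by
    intro q
    by_cases hq : q ∈ Ps
    · have hF : Fact q.Prime := ⟨hq.1⟩
      have hdq : d ∣ q - 1 := by
        rw [← ZMod.natCast_eq_zero_iff, Nat.cast_sub hq.1.one_lt.le, hq.2.2]
        simp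
      obtain ⟨ζ, hζ⟩ := exists_zeta q d hdq
      exact ⟨ζ, fun _ => hζ⟩
    · exact ⟨0, fun h => absurd h hq⟩
  choose c hc using hz
  have hn : ∀ q : ℕ, ∃ b : ZMod q, q ∈ Ps → IsUnit b ∧ b ^ ((q - 1) / 2) = -1 := by
    intro q
    by_cases hq : q ∈ Ps
    · obtain ⟨b, hb⟩ := exists_nonres hq.1 hq.2.1
      exact ⟨b, fun _ => hb⟩
    · exact ⟨0, fun h => absurd h hq⟩
  choose b hb using hn
  refine null_mono ?_ (two_step ha.well Ps (fun q hq => hq.1) hdiv c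
    (fun q => {r : ℕ | r.Prime ∧ (r : ZMod q) = b q}) (fun q r hr => hr.1) (fun q hq => by
      have : NeZero q := ⟨hq.1.ne_zero⟩
      exact not_summable_of_big (big_ap (hb q hq).1)))
  rintro t ⟨n, hnt, hn2, m, hm, hm3, hlm, hS⟩ ⟨q, hq, hqc, r, ⟨hr, hrb⟩, hr1, hr2⟩
  have hF : Fact q.Prime := ⟨hq.1⟩
  have hqc' : ((a t : ℤ) : ZMod q) = c q := hqc
  have hnq : (n : ZMod q) = c q := by
    rw [← hqc', ← hnt]
    simp
  have hr1' : (r : ℤ) ∣ a t := hr1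
  have hr2' : ¬ (r : ℤ) ^ 2 ∣ a t := hr2
  rw [← hnt] at hr1' hr2'
  have hrn : r ∣ n := by exact_mod_cast hr1'
  have hrn2 : ¬ r ^ 2 ∣ n := fun h => hr2' (by exact_mod_cast h)
  obtain ⟨u, hu⟩ := hrn
  have hru : ¬ r ∣ u := by
    rintro ⟨u', hu'⟩
    exact hrn2 ⟨u', by rw [hu, hu']; ring⟩
  refine excluded' (n := n ^ i) (m := m) (w := q) (r := r) (j := (q - 1) / 2) (c := i)
    (n' := u ^ i) hm hm3 (hn2.trans (Nat.le_self_pow hi0.ne' n)) hS hq.1 ?_ ?_ hr hi ?_ ?_ ?_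
  · push_cast
    rw [hnq, ← pow_mul, hc q hq, hd]
    exact Nat.mul_dvd_mul_left i hlm
  · push_cast
    rw [hnq, Ne, hc q hq, hd]
    intro h
    have h1 := Nat.le_of_dvd hi0 h
    have h2 := hl.two_le
    nlinarith
  · rw [hu, mul_pow]
  · exact fun h => hru (hr.dvd_of_dvd_pow h)
  · rw [hrb]
    exact (hb q hq).2

theorem null_empty {S : ℕ → Finset ℕ} : NullIn S ∅ := by
  intro ε hε
  refine ⟨0, fun N _ => ?_⟩
  simp only [Set.mem_empty_iff_false, and_false, Set.ofPred_false, Set.ncard_empty,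
    Nat.cast_zero]
  positivity

/-- **One null set** -/
theorem odd_main {S₁ S₂ : ℕ → Finset ℕ} (hS₁ : ∀ N, S₁ N ⊆ Ioc N (2 * N))
    (hS₂ : ∀ N, S₂ N ⊆ Ioc N (2 * N)) {a : ℕ → ℤ} (h₁ : Eqd S₁ a) (h₂ : Eqd S₂ a) :
    ∃ E : Set ℕ, NullIn S₁ E ∧ NullIn S₂ E ∧ ∀ K i : ℕ, Odd i →
      {t : ℕ | t ∉ E ∧ ∃ n : ℕ, (n : ℤ) = a t ∧ 2 ≤ n ∧ ∃ m, Odd m ∧ 3 ≤ m ∧ m.minFac ≤ K ∧
        HasSinger (n ^ i) m}.Finite := by
  classical
  set B : ℕ → ℕ → Set ℕ := fun i l => if Odd i ∧ l.Prime then Bad a i l else ∅ with hB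
  have hBn : ∀ i l, NullIn S₁ (B i l) ∧ NullIn S₂ (B i l) := by
    intro i l
    by_cases h : Odd i ∧ l.Prime
    · have : B i l = Bad a i l := by rw [hB]; exact if_pos h
      rw [this]
      exact ⟨bad_null h₁ h.1 h.2, bad_null h₂ h.1 h.2⟩
    · have : B i l = ∅ := by rw [hB]; exact if_neg h
      rw [this]
      exact ⟨null_empty, null_empty⟩
  set E : ℕ → Set ℕ := fun k => {t | ∃ i ≤ k, t ∈ {t | ∃ l ≤ k, t ∈ B i l}} with hE
  have hmono : Monotone E := by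
    rintro k k' hk t ⟨i, hi, l, hl, ht⟩
    exact ⟨i, hi.trans hk, l, hl.trans hk, ht⟩
  obtain ⟨E', h1, h2, h3⟩ := diag hmono hS₁ hS₂
    (fun k => null_iUnion (fun i => null_iUnion (fun l => (hBn i l).1) k) k)
    (fun k => null_iUnion (fun i => null_iUnion (fun l => (hBn i l).2) k) k)
  refine ⟨E', h1, h2, fun K i hi => (h3 (max K i)).subset ?_⟩
  rintro t ⟨htE, n, hn, hn2, m, hm, hm3, hmK, hS⟩
  refine ⟨⟨i, le_max_right _ _, m.minFac, hmK.trans (le_max_left _ _), ?_⟩, htE⟩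
  have hp : m.minFac.Prime := Nat.minFac_prime (by omega)
  have : B i m.minFac = Bad a i m.minFac := by rw [hB]; exact if_pos ⟨hi, hp⟩
  rw [this]
  exact ⟨n, hn, hn2, m, hm, hm3, Nat.minFac_dvd m, hS⟩

end Pool.Agent.N92.SD
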